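import Pool.Agent.Helper33.HV.V2G
import Pool.Agent.Helper26.HW.Stmts

/-!
# Row V2R0
-/

set_option autoImplicit false

namespace Pool.Agent.Helper33.HW

open MeasureTheory Filter Topology Pool.Agent.Helper95.PW Pool.Agent.Helper95.LN
open Pool.Agent.Helper95.CF Pool.Agent.Helper95.HV Pool.Agent.Helper33.HV
open Pool.Agent.Helper26.HW

/-- row V2R0 -/
theorem V2R0 (h1 : ST_NBZ) (h2 : ST_FFZ) (h3 : ST_FGZ) (h4 : ST_DIP) (h5 : ST_KK) (h6 : ST_FLD)
    (h7 : ST_CUT) (h8 : ST_UNS) : ST_V2R0 := by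
  intro d hd hd1
  obtain ⟨C, K2, hC, hK2, H⟩ := V2G h1 h2 h3 h4 h5 h6 h7 d hd hd1
  obtain ⟨C8, hC8, H8⟩ := h8 d hd hd1
  refine ⟨C + 6 * (C8 * K2 ^ 2), by positivity, ?_⟩
  intro z L n M X Z x hDat hL hXL hD
  obtain ⟨a1, a2, a3, a4, a5⟩ := H z L n M X Z x hDat hL hXL hD
  have hL0 : 0 < L := by linarith
  have hc : ∀ m, (∑ i, ∑ k, (if nr (x k - X i) ≤ d / 2 then (∑ j, if j = i then 0 else
        Z j * Tq (x k - X j) (ev m) (gv (gN X m (d / 8)) (x k))) else 0)) ≤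
        C8 * K2 ^ 2 * Loc d z X Z x := fun m =>
    (le_abs_self _).trans (H8 z K2 n M X Z x (ev m) (fun k => gv (gN X m (d / 8)) (x k)) hDat hD
      a3 a4 hK2 (ev_bd m) (fun k i => a1 m k i) (a2 m))
  have hs := Finset.sum_le_sum fun m (_ : m ∈ Finset.univ) => hc m
  simp only [Finset.sum_const, Finset.card_univ, Fintype.card_fin, nsmul_eq_mul] at hs
  push_cast at hs
  have hrep : 0 ≤ rep x := by
    unfold rep
    refine Finset.sum_nonneg fun k _ => Finset.sum_nonneg fun l _ => ?_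
    split_ifs
    · exact one_div_nonneg.2 (Real.sqrt_nonneg _)
    · exact le_rfl
  have hpot : 0 ≤ ∑ k, pot X Z (x k) := by
    refine Finset.sum_nonneg fun k _ => Finset.sum_nonneg fun j _ => ?_
    exact div_nonneg (hDat.nuc.1 j) (Real.sqrt_nonneg _)
  have q1 : 0 ≤ 6 * (C8 * K2 ^ 2) / L * (rep x + ∑ k, pot X Z (x k)) := by positivity
  have q2 : (C + 6 * (C8 * K2 ^ 2)) * Loc d z X Z x +
      (C + 6 * (C8 * K2 ^ 2)) / L * (rep x + ∑ k, pot X Z (x k)) =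
      C * Loc d z X Z x + C / L * (rep x + ∑ k, pot X Z (x k)) +
      2 * (3 * (C8 * K2 ^ 2 * Loc d z X Z x)) +
      6 * (C8 * K2 ^ 2) / L * (rep x + ∑ k, pot X Z (x k)) := by ring
  rw [q2]
  linarith

end Pool.Agent.Helper33.HW
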